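import Pool.Agent.Lib_helper34.EclT.Defs
set_option autoImplicit false

namespace Pool.Agent.Ecl

open Set Filter Topology

theorem ENG_deriv {z : ℝ → St} {T : ℝ} (h : IsSol z T) {t : ℝ} (ht : t ∈ Icc 0 T) :
    HasDerivAt (fun s => (z s).p ^ 2 + (z s).q ^ 2 - U2 (z s).xi (z s).eta) 0 t := by
  obtain ⟨h1, h2, h3, h4⟩ := h t ht
  have hch := h1.cosh
  have hsh := h1.sinh
  have hco := h2.cos
  have hsi := h2.sin
  have hU := ((((hsh.pow 2).mul (hch.pow 2)).add ((hsi.pow 2).mul (hco.pow 2))).div_const 16).add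
    hch |>.sub (((hch.pow 2).sub (hco.pow 2)).const_mul (CJ / 4))
  have := ((h3.pow 2).add (h4.pow 2)).sub hU
  have key : HasDerivAt (fun s => (z s).p ^ 2 + (z s).q ^ 2 - U2 (z s).xi (z s).eta)
      _ t := this
  refine key.congr_deriv ?_
  unfold Fp Fq JJ
  have e1 := Real.cosh_sq (z t).xi
  have e2 := Real.sin_sq_add_cos_sq (z t).eta
  have e3 : Real.sinh (z t).xi ^ 2 = Real.cosh (z t).xi ^ 2 - 1 := by linarith
  have e4 : Real.sin (z t).eta ^ 2 = 1 - Real.cos (z t).eta ^ 2 := by linarith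
  simp only [Pi.pow_apply, Nat.cast_ofNat]
  ring_nf
  have e5 : Real.sinh (z t).xi ^ 3 = Real.sinh (z t).xi * (Real.cosh (z t).xi ^ 2 - 1) := by
    rw [← e3]; ring
  have e6 : Real.sin (z t).eta ^ 3 = Real.sin (z t).eta * (1 - Real.cos (z t).eta ^ 2) := by
    rw [← e4]; ring
  rw [e5, e6]
  ring

theorem energy_sol_pr {z : ℝ → St} {T : ℝ} (h : IsSol z T) :
    ∀ t ∈ Icc 0 T, (z t).p ^ 2 + (z t).q ^ 2 - U2 (z t).xi (z t).eta
      = (z 0).p ^ 2 + (z 0).q ^ 2 - U2 (z 0).xi (z 0).eta :=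
  constant_of_has_deriv_right_zero
    (f := fun s => (z s).p ^ 2 + (z s).q ^ 2 - U2 (z s).xi (z s).eta)
    (fun _ ht => (ENG_deriv h ht).continuousAt.continuousWithinAt)
    (fun _ ht => (ENG_deriv h (Ico_subset_Icc_self ht)).hasDerivWithinAt)

theorem fly_next_pr {tgt : ℕ} {κ' : ℝ} {x y : St} (he : x.p ^ 2 + x.q ^ 2 = U2 x.xi x.eta)
    (h : Fly tgt κ' x y) : tgt ≤ 3 ∧ OnSec tgt κ' (outX tgt y) (outY tgt y) (rotT tgt y) := by
  obtain ⟨T, z, hT, hz0, hz, -, -, hzT, hit⟩ := h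
  have hE := energy_sol_pr hz T ⟨hT.le, le_rfl⟩
  rw [hz0, hzT] at hE
  have hE' : y.p ^ 2 + y.q ^ 2 = U2 y.xi y.eta := by linarith
  obtain _ | _ | _ | _ | n := tgt
  · obtain ⟨a1, a2, a3, a4⟩ := hit
    refine ⟨by norm_num, ?_, rfl, ?_, ?_, ?_, ?_, ?_⟩
    · simp only [rotT, exOf, rot]
      have : U2 0 (Real.pi - y.eta) = U2 0 y.eta := by
        unfold U2
        rw [Real.sin_pi_sub, Real.cos_pi_sub]
        ring
      simp only [show (0 : ℕ) ≠ 3 by norm_num, if_false]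
      rw [this, neg_sq, neg_sq, hE', a1]
    · simp only [rotT, exOf, rot, show (0 : ℕ) ≠ 3 by norm_num, if_false]
      linarith
    · simp only [rotT, exOf, rot, show (0 : ℕ) ≠ 3 by norm_num, if_false]
      linarith
    · simp only [rotT, exOf, rot, outX, show (0 : ℕ) ≠ 3 by norm_num, if_false, if_true]
      exact Real.cos_pi_sub _
    · simp only [rotT, exOf, rot, outY, show (0 : ℕ) ≠ 3 by norm_num, if_false, if_true]
    · simp only [rotT, exOf, rot, show (0 : ℕ) ≠ 3 by norm_num, if_false]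
      linarith
  · obtain ⟨a1, a2, a3⟩ := hit
    refine ⟨by norm_num, ?_, ?_, ?_, ?_, ?_, ?_⟩
    · simp only [rotT, exOf, rot, zero_add, show (1 : ℕ) ≠ 3 by norm_num, if_false]
      rw [hE', a1]
      unfold U2
      rw [Real.sin_pi, Real.cos_pi, Real.sin_zero, Real.cos_zero]
      ring
    · simp [rotT, exOf, rot]
    · simpa [rotT, exOf, rot] using a3
    · simp [rotT, exOf, rot, outX]
    · simp [rotT, exOf, rot, outY]
    · simpa [rotT, exOf, rot] using a2
  · obtain ⟨a1, a2, a3⟩ := hit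
    refine ⟨by norm_num, ?_, ?_, ?_, ?_, ?_, ?_⟩
    · simp only [rotT, exOf, rot, zero_add, Nat.reduceAdd, show (2 : ℕ) ≠ 3 by norm_num, if_false]
      rw [hE', a1]
      unfold U2
      rw [Real.sin_pi, Real.cos_pi, Real.sin_zero, Real.cos_zero]
      ring
    · simp [rotT, exOf, rot]
    · simpa [rotT, exOf, rot] using a3
    · simp [rotT, exOf, rot, outX]
    · simp [rotT, exOf, rot, outY]
    · simpa [rotT, exOf, rot] using a2
  · obtain ⟨a1, a2, a3, a4, a5⟩ := hit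
    refine ⟨le_rfl, ?_, ?_, ?_, ?_, ?_, ?_, ?_, ?_⟩
    · simpa [rotT] using hE'
    · simpa [rotT] using a1
    · simpa [rotT] using a4
    · simpa [rotT] using a5
    · simpa [rotT] using a3
    · simp [rotT, outX]
    · simp [rotT, outY]
    · simpa [rotT] using a2
  · exact hit.elim

end Pool.Agent.Ecl
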