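import Pool.Agent.Lib_helper34.EclTF.FLW

/-! Wanted names of block FLW -/

namespace Pool.Agent.Ecl

alias contDiff_FE := contDiff_FE_pr
alias isSol_iff := isSol_iff_pr
alias tb_unique := tb_unique_pr
alias tb_persist := tb_persist_pr

end Pool.Agent.Ecl
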