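import Pool.Agent.Lib_helper34.EclT.Defs
import Pool.Agent.Lib_helper34.EclTF.FLWA
/-!
# FHA: the first hit is transversal
-/

set_option autoImplicit false
set_option linter.unusedVariables false

namespace Pool.Agent.Ecl

open Set Filter Topology

lemma fha_sides {f : ℝ → ℝ} {d T : ℝ} (h : HasDerivAt f d T) (hd : 0 < d) :
    ∃ r : ℝ, 0 < r ∧ ∀ t : ℝ, (T < t → t < T + r → f T < f t) ∧ (T - r < t → t < T → f t < f T) := by
  have h1 := (hasDerivAt_iff_tendsto_slope.1 h).eventually_const_lt hd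
  rw [eventually_nhdsWithin_iff, Metric.eventually_nhds_iff] at h1
  obtain ⟨r, hr, h2⟩ := h1
  refine ⟨r, hr, fun t => ⟨fun h3 h4 => ?_, fun h3 h4 => ?_⟩⟩
  · have h5 := h2 (y := t) (by rw [Real.dist_eq, abs_of_pos (by linarith)]; linarith) (by
      simpa using h3.ne')
    rw [slope_def_field] at h5
    have h6 : 0 < t - T := by linarith
    rcases div_pos_iff.1 h5 with h7 | h7
    · linarith [h7.1]
    · linarith [h7.2]
  · have h5 := h2 (y := t) (by rw [Real.dist_eq, abs_of_neg (by linarith)]; linarith) (by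
      simpa using h4.ne)
    rw [slope_def_field] at h5
    rcases div_pos_iff.1 h5 with h7 | h7
    · linarith [h7.2]
    · linarith [h7.1]

/-- **FHA.** the first hit is transversal -/
theorem hit_sides_pr {tgt : ℕ} {κ' : ℝ} {x0 y0 : St} {T c : ℝ} {z1 : ℝ → St} (hT : 0 < T)
    (hc : 0 < c) (h1 : IsSol z1 (T + c)) (h0 : z1 0 = x0) (hy : z1 T = y0)
    (hit : Hit tgt κ' y0) {ε : ℝ} (hε : 0 < ε) :
    ∃ t0 t1 : ℝ, 0 < t0 ∧ t0 < T ∧ T < t1 ∧ t1 < T + c ∧ T - ε < t0 ∧ t1 < T + ε ∧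
      (∀ t ∈ Icc t0 t1, dist (toE (z1 t)) (toE y0) < ε) ∧
      (tgt = 0 → (z1 t1).xi < 0) ∧ (tgt = 1 → (z1 t1).eta < 0) ∧
      (tgt = 2 → Real.pi < (z1 t1).eta) ∧
      (tgt = 3 → Real.cos (z1 t0).eta < κ' ∧ κ' < Real.cos (z1 t1).eta ∧
        ∀ t ∈ Icc t0 t1, (z1 t).q < 0) := by
  obtain ⟨d1, d2, d3, d4⟩ := h1 T ⟨hT.le, by linarith⟩
  -- continuity
  have c1 : ContinuousAt (fun t => toE (z1 t)) T := by
    unfold toE
    exact d1.continuousAt.prodMk (d2.continuousAt.prodMk (d3.continuousAt.prodMk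
      d4.continuousAt))
  obtain ⟨r1, hr1, c2⟩ := Metric.continuousAt_iff.1 c1 ε hε
  have key : ∃ r : ℝ, 0 < r ∧ ∀ t0 t1 : ℝ, T - r < t0 → t0 < T → T < t1 → t1 < T + r →
      (tgt = 0 → (z1 t1).xi < 0) ∧ (tgt = 1 → (z1 t1).eta < 0) ∧
      (tgt = 2 → Real.pi < (z1 t1).eta) ∧
      (tgt = 3 → Real.cos (z1 t0).eta < κ' ∧ κ' < Real.cos (z1 t1).eta ∧
        ∀ t ∈ Icc t0 t1, (z1 t).q < 0) := by
    match tgt, hit with
    | 0, hit =>
      obtain ⟨e1, e2, e3, e4⟩ := hit
      rw [← hy] at e1 e2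
      obtain ⟨r, hr, h2⟩ := fha_sides d1.neg (by linarith : 0 < -(z1 T).p)
      refine ⟨r, hr, fun t0 t1 g1 g2 g3 g4 => ⟨fun _ => ?_, ?_, ?_, ?_⟩⟩
      · have h3 := (h2 t1).1 g3 g4
        simp only [Pi.neg_apply] at h3
        linarith
      · intro h; omega
      · intro h; omega
      · intro h; omega
    | 1, hit =>
      obtain ⟨e1, e2, e3⟩ := hit
      rw [← hy] at e1 e2
      obtain ⟨r, hr, h2⟩ := fha_sides d2.neg (by linarith : 0 < -(z1 T).q)
      refine ⟨r, hr, fun t0 t1 g1 g2 g3 g4 => ⟨?_, fun _ => ?_, ?_, ?_⟩⟩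
      · intro h; omega
      · have h3 := (h2 t1).1 g3 g4
        simp only [Pi.neg_apply] at h3
        linarith
      · intro h; omega
      · intro h; omega
    | 2, hit =>
      obtain ⟨e1, e2, e3⟩ := hit
      rw [← hy] at e1 e2
      obtain ⟨r, hr, h2⟩ := fha_sides d2 e2
      refine ⟨r, hr, fun t0 t1 g1 g2 g3 g4 => ⟨?_, ?_, fun _ => ?_, ?_⟩⟩
      · intro h; omega
      · intro h; omega
      · have h3 := (h2 t1).1 g3 g4
        linarith
      · intro h; omega
    | 3, hit =>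
      obtain ⟨e1, e2, e3, e4, e5⟩ := hit
      rw [← hy] at e1 e2 e4 e5
      have hs : 0 < Real.sin (z1 T).eta := Real.sin_pos_of_pos_of_lt_pi e4 e5
      have d5 : HasDerivAt (fun s => Real.cos (z1 s).eta) (-Real.sin (z1 T).eta * (z1 T).q) T :=
        d2.cos
      obtain ⟨r, hr, h2⟩ := fha_sides d5 (by nlinarith)
      have h3 := d4.continuousAt.eventually_lt_const e2
      rw [Metric.eventually_nhds_iff] at h3
      obtain ⟨r', hr', h4⟩ := h3
      refine ⟨min r r', lt_min hr hr', fun t0 t1 g1 g2 g3 g4 => ⟨?_, ?_, ?_, fun _ => ?_⟩⟩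
      · intro h; omega
      · intro h; omega
      · intro h; omega
      · have m1 := min_le_left r r'
        have m2 := min_le_right r r'
        have h5 := (h2 t0).2 (by linarith) g2
        have h6 := (h2 t1).1 g3 (by linarith)
        rw [e1] at h5 h6
        refine ⟨h5, h6, fun t ht => ?_⟩
        apply h4
        rw [Real.dist_eq, abs_lt]
        exact ⟨by linarith [ht.1], by linarith [ht.2]⟩
    | n + 4, hit => exact hit.elim
  obtain ⟨r2, hr2, h3⟩ := key
  obtain ⟨ρ, hρ⟩ : ∃ ρ, ρ = min (min r1 r2) (min (min T c) ε) := ⟨_, rfl⟩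
  have p0 : 0 < ρ := by
    rw [hρ]
    exact lt_min (lt_min hr1 hr2) (lt_min (lt_min hT hc) hε)
  have p1 : ρ ≤ r1 := by rw [hρ]; exact (min_le_left _ _).trans (min_le_left _ _)
  have p2 : ρ ≤ r2 := by rw [hρ]; exact (min_le_left _ _).trans (min_le_right _ _)
  have p3 : ρ ≤ T := by
    rw [hρ]; exact (min_le_right _ _).trans ((min_le_left _ _).trans (min_le_left _ _))
  have p4 : ρ ≤ c := by
    rw [hρ]; exact (min_le_right _ _).trans ((min_le_left _ _).trans (min_le_right _ _))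
  have p5 : ρ ≤ ε := by rw [hρ]; exact (min_le_right _ _).trans (min_le_right _ _)
  refine ⟨T - ρ / 2, T + ρ / 2, by linarith, by linarith, by linarith, by linarith, by linarith,
    by linarith, ?_, h3 _ _ (by linarith) (by linarith) (by linarith) (by linarith)⟩
  intro t ht
  have h4 : dist t T < r1 := by
    rw [Real.dist_eq, abs_lt]
    exact ⟨by linarith [ht.1], by linarith [ht.2]⟩
  have h5 := c2 h4
  rw [hy] at h5
  exact h5

end Pool.Agent.Ecl
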