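import Pool.Agent.Lib_helper34.EclT.Defs
import Pool.Agent.Lib_helper34.EclTF.FLWA
/-!
# FHB: no early arrival
-/

set_option autoImplicit false

namespace Pool.Agent.Ecl

open Set Filter Topology

lemma FHB_pos {f : ℝ × ℝ × ℝ × ℝ → ℝ} (hf : Continuous f) {v0 : ℝ × ℝ × ℝ × ℝ} {c : ℝ}
    (h : c < f v0) : ∀ᶠ v in 𝓝 v0, c < f v :=
  (hf.tendsto v0).eventually (lt_mem_nhds h)

lemma FHB_neg {f : ℝ × ℝ × ℝ × ℝ → ℝ} (hf : Continuous f) {v0 : ℝ × ℝ × ℝ × ℝ} {c : ℝ}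
    (h : f v0 < c) : ∀ᶠ v in 𝓝 v0, f v < c :=
  (hf.tendsto v0).eventually (gt_mem_nhds h)

lemma FHB_ne {f : ℝ × ℝ × ℝ × ℝ → ℝ} (hf : Continuous f) {v0 : ℝ × ℝ × ℝ × ℝ} {c : ℝ}
    (h : f v0 ≠ c) : ∀ᶠ v in 𝓝 v0, f v ≠ c :=
  (hf.tendsto v0).eventually (isOpen_ne.mem_nhds h)

lemma FHB_c1 : Continuous fun v : ℝ × ℝ × ℝ × ℝ => v.1 := continuous_fst
lemma FHB_c2 : Continuous fun v : ℝ × ℝ × ℝ × ℝ => v.2.1 := continuous_fst.comp continuous_snd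
lemma FHB_c3 : Continuous fun v : ℝ × ℝ × ℝ × ℝ => v.2.2.1 :=
  continuous_fst.comp (continuous_snd.comp continuous_snd)
lemma FHB_c4 : Continuous fun v : ℝ × ℝ × ℝ × ℝ => v.2.2.2 :=
  continuous_snd.comp (continuous_snd.comp continuous_snd)

lemma FHB_loc {tgt : ℕ} {κ' : ℝ} {y : St} (hA : 0 < y.xi ∨ 0 < y.p) (hB : 0 < y.eta ∨ 0 < y.q)
    (hC : y.eta < Real.pi ∨ y.q < 0) (hD : NoSec tgt κ' y) :
    ∀ᶠ v in 𝓝 (toE y), ¬ Hit tgt κ' (ofE v) := by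
  match tgt, hD with
  | 0, _ =>
    rcases hA with h | h
    · filter_upwards [FHB_pos FHB_c1 (v0 := toE y) h] with v hv hit
      obtain ⟨e1, -⟩ := hit
      exact absurd e1 hv.ne'
    · filter_upwards [FHB_pos FHB_c3 (v0 := toE y) h] with v hv hit
      obtain ⟨-, e2, -⟩ := hit
      exact lt_asymm e2 hv
  | 1, _ =>
    rcases hB with h | h
    · filter_upwards [FHB_pos FHB_c2 (v0 := toE y) h] with v hv hit
      obtain ⟨e1, -⟩ := hit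
      exact absurd e1 hv.ne'
    · filter_upwards [FHB_pos FHB_c4 (v0 := toE y) h] with v hv hit
      obtain ⟨-, e2, -⟩ := hit
      exact lt_asymm e2 hv
  | 2, _ =>
    rcases hC with h | h
    · filter_upwards [FHB_neg FHB_c2 (v0 := toE y) h] with v hv hit
      obtain ⟨e1, -⟩ := hit
      exact absurd e1 hv.ne
    · filter_upwards [FHB_neg FHB_c4 (v0 := toE y) h] with v hv hit
      obtain ⟨-, e2, -⟩ := hit
      exact lt_asymm e2 hv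
  | 3, hD =>
    have h := hD rfl
    rw [not_and_or, not_le] at h
    rcases h with h | h
    · filter_upwards [FHB_ne (Real.continuous_cos.comp FHB_c2) (v0 := toE y) h] with v hv hit
      obtain ⟨e1, -⟩ := hit
      exact hv e1
    · filter_upwards [FHB_pos FHB_c4 (v0 := toE y) h] with v hv hit
      obtain ⟨-, e2, -⟩ := hit
      exact lt_asymm e2 hv
  | n + 4, _ =>
    exact Filter.Eventually.of_forall fun v hit => hit

lemma FHB_start {src : ℕ} {κ X Y : ℝ} {x : St} (hx : OnSec src κ X Y x) :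
    (0 < x.xi ∨ 0 < x.p) ∧ (0 < x.eta ∨ 0 < x.q) ∧ (x.eta < Real.pi ∨ x.q < 0) := by
  obtain ⟨-, h⟩ := hx
  have hpi := Real.pi_pos
  match src, h with
  | 0, h =>
    obtain ⟨a1, a2, a3, a4, a5, a6⟩ := h
    exact ⟨Or.inr a6, Or.inl a2, Or.inl a3⟩
  | 1, h =>
    obtain ⟨a1, a2, a3, a4, a5⟩ := h
    exact ⟨Or.inl a2, Or.inl (by rw [a1]; exact hpi), Or.inr a5⟩
  | 2, h =>
    obtain ⟨a1, a2, a3, a4, a5⟩ := h
    exact ⟨Or.inl a2, Or.inr a5, Or.inl (by rw [a1]; exact hpi)⟩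
  | 3, h =>
    obtain ⟨a1, a2, a3, a4, a5, a6, a7⟩ := h
    exact ⟨Or.inl a4, Or.inl a2, Or.inl a3⟩
  | n + 4, h =>
    obtain ⟨a1, a2, a3, a4, a5⟩ := h
    exact ⟨Or.inr a4, Or.inr a5, Or.inl (by rw [a2]; exact hpi)⟩

lemma FHB_cont {z : ℝ → St} {T t0 : ℝ} (h : IsSol z T) (ht : t0 ≤ T) :
    ContinuousOn (fun t => toE (z t)) (Icc 0 t0) := by
  intro t ht'
  obtain ⟨h1, h2, h3, h4⟩ := h t ⟨ht'.1, ht'.2.trans ht⟩
  have : ContinuousAt (fun t => ((z t).xi, (z t).eta, (z t).p, (z t).q)) t :=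
    h1.continuousAt.prodMk (h2.continuousAt.prodMk (h3.continuousAt.prodMk h4.continuousAt))
  exact this.continuousWithinAt

/-- **FHB.** no arrival before the time `t0`, for all orbits near the given one (cites FLW) -/
theorem no_early_pr {src tgt : ℕ} {κ κ' X Y : ℝ} {x0 y0 : St} {T t0 : ℝ} {z1 : ℝ → St}
    (hx : OnSec src κ X Y x0) (hT : t0 < T) (h1 : IsSol z1 T) (h0 : z1 0 = x0)
    (hin : ∀ t, 0 < t → t < T → Inside (z1 t)) (hns : ∀ t, 0 ≤ t → t < T → NoSec tgt κ' (z1 t)) :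
    ∃ δ > 0, ∀ (X' Y' : ℝ) (z : ℝ → St), OnSec src κ X' Y' (z 0) →
      (∀ t ∈ Icc 0 t0, dist (toE (z t)) (toE (z1 t)) < δ) →
      ∀ t ∈ Ioc 0 t0, ¬ Hit tgt κ' (z t) := by
  set G : Set (ℝ × ℝ × ℝ × ℝ) := {v | ¬ Hit tgt κ' (ofE v)} with hG
  have hsub : (fun t => toE (z1 t)) '' Icc 0 t0 ⊆ interior G := by
    rintro _ ⟨t, ht, rfl⟩
    rw [mem_interior_iff_mem_nhds]
    have htT : t < T := ht.2.trans_lt hT
    rcases eq_or_lt_of_le ht.1 with h | h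
    · subst h
      rw [← h0] at hx
      obtain ⟨hA, hB, hC⟩ := FHB_start hx
      exact FHB_loc hA hB hC (hns 0 le_rfl htT)
    · obtain ⟨i1, i2, i3⟩ := hin t h htT
      exact FHB_loc (Or.inl i1) (Or.inl i2) (Or.inl i3) (hns t ht.1 htT)
  have hK : IsCompact ((fun t => toE (z1 t)) '' Icc 0 t0) :=
    isCompact_Icc.image_of_continuousOn (FHB_cont h1 hT.le)
  obtain ⟨δ, hδ, hδ'⟩ := hK.exists_thickening_subset_open isOpen_interior hsub
  refine ⟨δ, hδ, ?_⟩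
  intro X' Y' z _ hz t ht hit
  have ht' : t ∈ Icc 0 t0 := ⟨ht.1.le, ht.2⟩
  have h2 : toE (z t) ∈ Metric.thickening δ ((fun t => toE (z1 t)) '' Icc 0 t0) :=
    Metric.mem_thickening_iff.2 ⟨toE (z1 t), ⟨t, ht', rfl⟩, hz t ht'⟩
  have h3 : toE (z t) ∈ G := interior_subset (hδ' h2)
  exact h3 hit

end Pool.Agent.Ecl
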