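import Pool.Agent.Lib_helper34.EclT.Defs
import Pool.Agent.Lib_helper34.EclTF.FLWA
import Pool.Agent.Lib_helper34.EclTF.FHAA
import Pool.Agent.Lib_helper34.EclTF.FHBA
/-!
# Block FHC: continuity of the first hit
-/

set_option autoImplicit false

namespace Pool.Agent.Ecl

open Set Filter Topology

theorem FHC_xi (a b : St) : |a.xi - b.xi| ≤ dist (toE a) (toE b) := by
  unfold toE
  rw [Prod.dist_eq, ← Real.dist_eq]
  exact le_max_left _ _

theorem FHC_eta (a b : St) : |a.eta - b.eta| ≤ dist (toE a) (toE b) := by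
  unfold toE
  rw [Prod.dist_eq, Prod.dist_eq, ← Real.dist_eq]
  exact le_trans (le_max_left _ _) (le_max_right _ _)

theorem FHC_q (a b : St) : |a.q - b.q| ≤ dist (toE a) (toE b) := by
  unfold toE
  rw [Prod.dist_eq, Prod.dist_eq, Prod.dist_eq, ← Real.dist_eq]
  exact le_trans (le_max_right _ _) (le_trans (le_max_right _ _) (le_max_right _ _))

theorem FHC_restrict {z : ℝ → St} {T T' : ℝ} (h : IsSol z T) (hT : T' ≤ T) : IsSol z T' :=
  fun t ht => h t ⟨ht.1, le_trans ht.2 hT⟩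

theorem FHC_margin {tgt : ℕ} {κ' t0 t1 : ℝ} {z1 : ℝ → St} (htgt : tgt ≤ 3) (h01 : t0 ≤ t1)
    (hq : ContinuousOn (fun t => (z1 t).q) (Icc t0 t1))
    (a0 : tgt = 0 → (z1 t1).xi < 0) (a1 : tgt = 1 → (z1 t1).eta < 0)
    (a2 : tgt = 2 → Real.pi < (z1 t1).eta)
    (a3 : tgt = 3 → Real.cos (z1 t0).eta < κ' ∧ κ' < Real.cos (z1 t1).eta ∧
        ∀ t ∈ Icc t0 t1, (z1 t).q < 0) :
    ∃ M > 0, (tgt = 0 → (z1 t1).xi ≤ -M) ∧ (tgt = 1 → (z1 t1).eta ≤ -M) ∧
      (tgt = 2 → Real.pi + M ≤ (z1 t1).eta) ∧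
      (tgt = 3 → Real.cos (z1 t0).eta + M ≤ κ' ∧ κ' + M ≤ Real.cos (z1 t1).eta ∧
        ∀ t ∈ Icc t0 t1, (z1 t).q ≤ -M) := by
  have hc : tgt = 0 ∨ tgt = 1 ∨ tgt = 2 ∨ tgt = 3 := by omega
  rcases hc with hc | hc | hc | hc
  · refine ⟨-(z1 t1).xi, by linarith [a0 hc], ?_, ?_, ?_, ?_⟩
    · intro _; linarith
    · intro h; omega
    · intro h; omega
    · intro h; omega
  · refine ⟨-(z1 t1).eta, by linarith [a1 hc], ?_, ?_, ?_, ?_⟩
    · intro h; omega
    · intro _; linarith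
    · intro h; omega
    · intro h; omega
  · refine ⟨(z1 t1).eta - Real.pi, by linarith [a2 hc], ?_, ?_, ?_, ?_⟩
    · intro h; omega
    · intro h; omega
    · intro _; linarith
    · intro h; omega
  · obtain ⟨b1, b2, b3⟩ := a3 hc
    obtain ⟨s, hs, hmax⟩ := isCompact_Icc.exists_isMaxOn (nonempty_Icc.mpr h01) hq
    have hs' := b3 s hs
    refine ⟨min (κ' - Real.cos (z1 t0).eta) (min (Real.cos (z1 t1).eta - κ') (-(z1 s).q)),
      lt_min (by linarith) (lt_min (by linarith) (by linarith)), ?_, ?_, ?_, ?_⟩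
    · intro h; omega
    · intro h; omega
    · intro h; omega
    · intro _
      have m1 := min_le_left (κ' - Real.cos (z1 t0).eta)
        (min (Real.cos (z1 t1).eta - κ') (-(z1 s).q))
      have m2 := min_le_right (κ' - Real.cos (z1 t0).eta)
        (min (Real.cos (z1 t1).eta - κ') (-(z1 s).q))
      have m3 := min_le_left (Real.cos (z1 t1).eta - κ') (-(z1 s).q)
      have m4 := min_le_right (Real.cos (z1 t1).eta - κ') (-(z1 s).q)
      refine ⟨by linarith, by linarith, ?_⟩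
      intro t ht
      have := hmax ht
      simp only [mem_ofPred_eq] at this
      linarith

/-- **FHC.** continuity of the first hit (cites FLW, FHA, FHB) -/
theorem fly_near_pr {src tgt : ℕ} {κ κ' X Y : ℝ} {x0 y0 : St} (hx : OnSec src κ X Y x0)
    (h : Fly tgt κ' x0 y0) {ε : ℝ} (hε : 0 < ε) :
    ∃ δ > 0, ∀ (X' Y' : ℝ) (x y : St), OnSec src κ X' Y' x → dist (toE x) (toE x0) < δ →
      Fly tgt κ' x y → dist (toE y) (toE y0) < ε := by
  obtain ⟨T, z0, hT, hz0, hsol, hin, hns, hzT, hit⟩ := h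
  obtain ⟨c, hc, z1, hsol1, heq, hpers⟩ := tb_persist hT.le hsol
  have e0 : z1 0 = x0 := by rw [heq 0 ⟨le_refl _, hT.le⟩, hz0]
  have eT : z1 T = y0 := by rw [heq T ⟨hT.le, le_refl _⟩, hzT]
  obtain ⟨t0, t1, p0, p1, p2, p3, _, _, p4, a0, a1, a2, a3⟩ :=
    hit_sides hT hc hsol1 e0 eT hit (half_pos hε)
  have hsol1T : IsSol z1 T := FHC_restrict hsol1 (by linarith)
  obtain ⟨δ₁, hδ₁, hno⟩ := no_early (tgt := tgt) (κ' := κ') (y0 := y0) hx p1 hsol1T e0
    (fun t h1 h2 => by rw [heq t ⟨h1.le, h2.le⟩]; exact hin t h1 h2)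
    (fun t h1 h2 => by rw [heq t ⟨h1, h2.le⟩]; exact hns t h1 h2)
  have htgt : tgt ≤ 3 := by
    by_contra hcon
    obtain ⟨n, rfl⟩ : ∃ n, tgt = n + 4 := ⟨tgt - 4, by omega⟩
    exact hit
  have hq : ContinuousOn (fun t => (z1 t).q) (Icc t0 t1) := fun t ht =>
    (hsol1 t ⟨by linarith [ht.1], by linarith [ht.2]⟩).2.2.2.continuousAt.continuousWithinAt
  obtain ⟨M, hM, m0, m1, m2, m3⟩ := FHC_margin htgt (by linarith) hq a0 a1 a2 a3
  obtain ⟨η, hη, hclose⟩ := hpers (min (ε / 2) (min δ₁ M))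
    (lt_min (half_pos hε) (lt_min hδ₁ hM))
  refine ⟨η, hη, ?_⟩
  intro X' Y' x y hX hd hfly
  rw [← hz0] at hd
  obtain ⟨z, hz, hzs, hzd⟩ := hclose x hd
  obtain ⟨T', z', hT', hz'0, hsol', hin', hns', hz'T, hit'⟩ := hfly
  have hdist : ∀ t, 0 ≤ t → t ≤ T + c → dist (toE (z t)) (toE (z1 t)) < ε / 2 ∧
      dist (toE (z t)) (toE (z1 t)) < δ₁ ∧ dist (toE (z t)) (toE (z1 t)) < M := by
    intro t h1 h2
    have := hzd t ⟨h1, h2⟩
    exact ⟨lt_of_lt_of_le this (min_le_left _ _),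
      lt_of_lt_of_le this (le_trans (min_le_right _ _) (min_le_left _ _)),
      lt_of_lt_of_le this (le_trans (min_le_right _ _) (min_le_right _ _))⟩
  have hagree : ∀ t, 0 ≤ t → t ≤ T' → t ≤ T + c → z' t = z t := by
    intro t h1 h2 h3
    exact tb_unique (FHC_restrict hsol' h2) (FHC_restrict hzs h3) (by rw [hz'0, hz]) t
      ⟨h1, le_refl _⟩
  -- not too early
  have hlow : t0 < T' := by
    by_contra hcon
    push Not at hcon
    have h1 := hno X' Y' z (by rw [hz]; exact hX)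
      (fun t ht => (hdist t ht.1 (by linarith [ht.2])).2.1) T' ⟨hT', hcon⟩
    rw [← hagree T' hT'.le (le_refl _) (by linarith), hz'T] at h1
    exact h1 hit'
  -- not too late
  have hhigh : T' ≤ t1 := by
    by_contra hcon
    push Not at hcon
    have ht1 : 0 < t1 := by linarith
    have hI := hin' t1 ht1 hcon
    rw [hagree t1 ht1.le hcon.le p3.le] at hI
    have hd1 := (hdist t1 ht1.le p3.le).2.2
    have hxi := abs_lt.mp (lt_of_le_of_lt (FHC_xi (z t1) (z1 t1)) hd1)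
    have heta := abs_lt.mp (lt_of_le_of_lt (FHC_eta (z t1) (z1 t1)) hd1)
    obtain ⟨i1, i2, i3⟩ := hI
    have hcases : tgt = 0 ∨ tgt = 1 ∨ tgt = 2 ∨ tgt = 3 := by omega
    rcases hcases with hc0 | hc0 | hc0 | hc0
    · have := m0 hc0; linarith [hxi.2]
    · have := m1 hc0; linarith [heta.2]
    · have := m2 hc0; linarith [heta.1]
    · obtain ⟨n1, n2, n3⟩ := m3 hc0
      have hcz : ContinuousOn (fun t => Real.cos (z t).eta) (Icc t0 t1) := fun t ht =>
        (Real.continuous_cos.continuousAt.comp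
          (hzs t ⟨by linarith [ht.1], by linarith [ht.2]⟩).2.1.continuousAt).continuousWithinAt
      have hcl : ∀ t, 0 ≤ t → t ≤ T + c →
          |Real.cos (z t).eta - Real.cos (z1 t).eta| < M := by
        intro t h1 h2
        refine lt_of_le_of_lt ?_ (hdist t h1 h2).2.2
        refine le_trans ?_ (FHC_eta (z t) (z1 t))
        have := Real.lipschitzWith_cos.dist_le_mul (z t).eta (z1 t).eta
        rw [Real.dist_eq, Real.dist_eq, NNReal.coe_one, one_mul] at this
        exact this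
      have c0 := abs_lt.mp (hcl t0 p0.le (by linarith))
      have c1 := abs_lt.mp (hcl t1 ht1.le p3.le)
      have hmem : κ' ∈ Icc (Real.cos (z t0).eta) (Real.cos (z t1).eta) :=
        ⟨by linarith [c0.2], by linarith [c1.1]⟩
      obtain ⟨t, ht, hte⟩ := intermediate_value_Icc (by linarith : t0 ≤ t1) hcz hmem
      have ht0 : 0 ≤ t := by linarith [ht.1]
      have htT : t < T' := by linarith [ht.2]
      have hns1 := hns' t ht0 htT hc0
      rw [hagree t ht0 htT.le (by linarith [ht.2])] at hns1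
      apply hns1
      refine ⟨hte, ?_⟩
      have hq1 := abs_lt.mp (lt_of_le_of_lt (FHC_q (z t) (z1 t))
        (hdist t ht0 (by linarith [ht.2])).2.2)
      have hq2 := n3 t ht
      linarith [hq1.2]
  have hfin := (hdist T' hT'.le (by linarith)).1
  rw [← hagree T' hT'.le (le_refl _) (by linarith), hz'T] at hfin
  calc dist (toE y) (toE y0) ≤ dist (toE y) (toE (z1 T')) + dist (toE (z1 T')) (toE y0) :=
        dist_triangle _ _ _
    _ < ε / 2 + ε / 2 := add_lt_add hfin (p4 T' ⟨hlow.le, hhigh⟩)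
    _ = ε := by ring

end Pool.Agent.Ecl
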