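import Pool.Agent.Lib_helper34.EclT.Defs
import Pool.Agent.Lib_helper34.EclF.ODEA
set_option autoImplicit false

namespace Pool.Agent.Ecl

open Set Filter Topology

theorem contDiff_FE_pr : ContDiff ℝ 1 FE := by
  unfold FE Fp Fq JJ
  fun_prop

theorem isSol_iff_pr {z : ℝ → St} {T : ℝ} :
    IsSol z T ↔ SolOn FE univ (fun t => toE (z t)) T := by
  constructor
  · intro h t ht
    obtain ⟨h1, h2, h3, h4⟩ := h t ht
    exact ⟨h1.prodMk (h2.prodMk (h3.prodMk h4)), mem_univ _⟩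
  · intro h t ht
    have h0 := (h t ht).1
    have f1 := (hasFDerivAt_fst (𝕜 := ℝ) (p := toE (z t))).comp_hasDerivAt t h0
    have s1 := (hasFDerivAt_snd (𝕜 := ℝ) (p := toE (z t))).comp_hasDerivAt t h0
    have f2 := (hasFDerivAt_fst (𝕜 := ℝ) (p := (toE (z t)).2)).comp_hasDerivAt t s1
    have s2 := (hasFDerivAt_snd (𝕜 := ℝ) (p := (toE (z t)).2)).comp_hasDerivAt t s1
    have f3 := (hasFDerivAt_fst (𝕜 := ℝ) (p := (toE (z t)).2.2)).comp_hasDerivAt t s2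
    have s3 := (hasFDerivAt_snd (𝕜 := ℝ) (p := (toE (z t)).2.2)).comp_hasDerivAt t s2
    exact ⟨f1, f2, f3, s3⟩

theorem FLW_inj {x y : St} (h : toE x = toE y) : x = y := by
  cases x; cases y
  simp only [toE, Prod.mk.injEq] at h
  obtain ⟨h1, h2, h3, h4⟩ := h
  subst h1 h2 h3 h4
  rfl

theorem FLW_to_of (v : ℝ × ℝ × ℝ × ℝ) : toE (ofE v) = v := rfl

theorem tb_unique_pr {z z' : ℝ → St} {T : ℝ} (h : IsSol z T) (h' : IsSol z' T)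
    (h0 : z 0 = z' 0) : ∀ t ∈ Icc 0 T, z t = z' t := fun t ht =>
  FLW_inj (ode_unique isOpen_univ contDiff_FE_pr.contDiffOn (isSol_iff_pr.1 h)
    (isSol_iff_pr.1 h') (by simp only [h0]) t ht)

theorem tb_persist_pr {z0 : ℝ → St} {T : ℝ} (hT : 0 ≤ T) (h : IsSol z0 T) :
    ∃ c > 0, ∃ z1 : ℝ → St, IsSol z1 (T + c) ∧ (∀ t ∈ Icc 0 T, z1 t = z0 t) ∧
      ∀ δ > 0, ∃ η > 0, ∀ x : St, dist (toE x) (toE (z0 0)) < η → ∃ z : ℝ → St, z 0 = x ∧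
        IsSol z (T + c) ∧ ∀ t ∈ Icc 0 (T + c), dist (toE (z t)) (toE (z1 t)) < δ := by
  obtain ⟨c, hc, γ1, h1, h2, h3⟩ :=
    ode_persist isOpen_univ contDiff_FE_pr.contDiffOn hT (isSol_iff_pr.1 h)
  refine ⟨c, hc, fun t => ofE (γ1 t), isSol_iff_pr.2 h1, fun t ht => ?_, fun δ hδ => ?_⟩
  · apply FLW_inj
    rw [FLW_to_of, h2 t ht]
  · obtain ⟨η, hη, h4⟩ := h3 δ hδ
    refine ⟨η, hη, fun x hx => ?_⟩
    obtain ⟨γ, g0, g1, g2⟩ := h4 (toE x) hx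
    refine ⟨fun t => ofE (γ t), FLW_inj (by rw [FLW_to_of, g0]), isSol_iff_pr.2 g1, g2⟩

end Pool.Agent.Ecl
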