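import Pool.Agent.Lib_helper34.EclT.Defs
import Pool.Agent.Lib_helper34.EclTF.FLWA
/-! # Block FUN: the first hit is unique -/

set_option autoImplicit false

namespace Pool.Agent.Ecl

open Set Filter Topology

/-- a point inside and off the mid section is not on the target section -/
theorem FUN_not_hit {tgt : ℕ} {κ' : ℝ} {y : St} (hi : Inside y) (hn : NoSec tgt κ' y) :
    ¬ Hit tgt κ' y := by
  intro h
  obtain ⟨h1, h2, h3⟩ := hi
  match tgt, hn, h with
  | 0, _, h => exact absurd h.1 h1.ne'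
  | 1, _, h => exact absurd h.1 h2.ne'
  | 2, _, h => exact absurd h.1 h3.ne
  | 3, hn, h => exact hn rfl ⟨h.1, h.2.1.le⟩
  | (n + 4), _, h => exact h

/-- the times of arrival satisfy `T' ≤ T` -/
theorem FUN_le {tgt : ℕ} {κ' : ℝ} {T T' : ℝ} {z z' : ℝ → St} (hT : 0 < T)
    (h : IsSol z T) (h' : IsSol z' T') (h0 : z 0 = z' 0) (hit : Hit tgt κ' (z T))
    (hin : ∀ t, 0 < t → t < T' → Inside (z' t))
    (hns : ∀ t, 0 ≤ t → t < T' → NoSec tgt κ' (z' t)) : T' ≤ T := by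
  by_contra hlt
  push Not at hlt
  have hr : IsSol z' T := fun t ht => h' t ⟨ht.1, ht.2.trans hlt.le⟩
  have he : z T = z' T := tb_unique h hr h0 T ⟨hT.le, le_rfl⟩
  rw [he] at hit
  exact FUN_not_hit (hin T hT hlt) (hns T hT.le hlt) hit

/-- **FUN.** (cites FLW) -/
theorem fly_unique_pr {tgt : ℕ} {κ' : ℝ} {x y y' : St} (h : Fly tgt κ' x y)
    (h' : Fly tgt κ' x y') : y = y' := by
  obtain ⟨T, z, hT, hz0, hz, hin, hns, hy, hit⟩ := h
  obtain ⟨T', z', hT', hz0', hz', hin', hns', hy', hit'⟩ := h'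
  subst hy hy'
  have h00 : z 0 = z' 0 := by rw [hz0, hz0']
  have h1 : T' ≤ T := FUN_le hT hz hz' h00 hit hin' hns'
  have h2 : T ≤ T' := FUN_le hT' hz' hz h00.symm hit' hin hns
  have h3 : T = T' := le_antisymm h2 h1
  subst h3
  exact tb_unique hz hz' h00 T ⟨hT.le, le_rfl⟩

end Pool.Agent.Ecl
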