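import Pool.Agent.Lib_helper34.EclT.Defs
import Pool.Agent.Lib_helper34.EclF.SYMA
set_option autoImplicit false

namespace Pool.Agent.Ecl

open Set

/-- **GLU.** (cites SYM `isSol_glue`) -/
theorem fly_itin_pr {κ' σ : ℝ} {x y : St} {e : Ex} {w : List Ex} (h : Fly 3 κ' x y)
    (hI : Itin y (e :: w) σ) : Itin x (e :: w) σ := by
  obtain ⟨T, z, hT, h0, hz, hin, _, hzT, hh⟩ := h
  obtain ⟨y', ⟨T', z', hT', h0', hz', hin', hzT', hE⟩, hI'⟩ := hI
  have hy : Inside y := hh.2.2
  refine ⟨y', ⟨T + T', fun s => if s ≤ T then z s else z' (s - T), by linarith, ?_, ?_, ?_, ?_, hE⟩,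
    hI'⟩
  · show (if (0 : ℝ) ≤ T then z 0 else z' (0 - T)) = x
    rw [if_pos hT.le, h0]
  · exact isSol_glue hT.le hT'.le hz hz' (by rw [h0', hzT])
  · intro t ht0 ht1
    show Inside (if t ≤ T then z t else z' (t - T))
    rcases lt_trichotomy t T with hlt | heq | hgt
    · rw [if_pos hlt.le]
      exact hin t ht0 hlt
    · subst heq
      rw [if_pos le_rfl, hzT]
      exact hy
    · rw [if_neg (not_le.2 hgt)]
      exact hin' (t - T) (by linarith) (by linarith)
  · show (if T + T' ≤ T then z (T + T') else z' (T + T' - T)) = y'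
    rw [if_neg (by linarith), show T + T' - T = T' by ring, hzT']

/-- **GLU.** -/
theorem fly_flight_pr {tgt : ℕ} {κ' : ℝ} {x y : St} (ht : tgt ≠ 3) (h : Fly tgt κ' x y) :
    Flight x (exOf tgt) y := by
  obtain ⟨T, z, hT, h0, hz, hin, _, hzT, hh⟩ := h
  refine ⟨T, z, hT, h0, hz, hin, hzT, ?_⟩
  match tgt, ht, hh with
  | 0, _, hh => exact hh
  | 1, _, hh => exact hh
  | 2, _, hh => exact hh
  | 3, ht, _ => exact absurd rfl ht
  | (n + 4), _, hh => exact hh.elim

end Pool.Agent.Ecl
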