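import Pool.Agent.Lib_helper34.EclTF.GLU

/-! Wanted names of block GLU -/

namespace Pool.Agent.Ecl

alias fly_itin := fly_itin_pr
alias fly_flight := fly_flight_pr

end Pool.Agent.Ecl
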