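import Pool.Agent.Lib_helper34.EclT.Defs
set_option autoImplicit false

namespace Pool.Agent.Ecl

open Set

lemma IVA_up {a b : ℝ} (hab : a < b) {U : ℝ → ℝ} (hU : ContinuousOn U (Icc a b))
    (h1 : U a < -1) (h2 : 1 < U b) :
    ∃ a' b' : ℝ, a ≤ a' ∧ a' < b' ∧ b' ≤ b ∧ (∀ s ∈ Icc a' b', |U s| ≤ 1) ∧
      (U a' = -1 ∧ U b' = 1) := by
  -- first time `b'` with `1 ≤ U`
  set S : Set ℝ := {s | s ∈ Icc a b ∧ 1 ≤ U s} with hS
  have hSc : IsCompact S := by
    have : S = Icc a b ∩ U ⁻¹' (Ici 1) := by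
      ext s
      simp [hS]
    rw [this]
    exact isCompact_Icc.of_isClosed_subset
      (hU.preimage_isClosed_of_isClosed isClosed_Icc isClosed_Ici) inter_subset_left
  have hSn : S.Nonempty := ⟨b, ⟨hab.le, le_rfl⟩, h2.le⟩
  obtain ⟨b', hb', hmin⟩ := hSc.exists_isLeast hSn
  have hab' : a < b' := by
    rcases hb'.1.1.eq_or_lt with h | h
    · rw [← h] at hb'
      linarith [hb'.2]
    · exact h
  have hlt : ∀ s ∈ Icc a b, s < b' → U s < 1 := by
    intro s hs hs'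
    by_contra hc
    push Not at hc
    exact absurd (hmin ⟨hs, hc⟩) (not_le.2 hs')
  have hUb' : U b' = 1 := by
    apply le_antisymm _ hb'.2
    by_contra hc
    push Not at hc
    have hsub : Icc a b' ⊆ Icc a b := Icc_subset_Icc_right hb'.1.2
    have hIVT := intermediate_value_Icc hab'.le (hU.mono hsub)
    obtain ⟨c, hc1, hc2⟩ := hIVT (show (1 : ℝ) ∈ Icc (U a) (U b') from ⟨by linarith, hc.le⟩)
    have hcb : c < b' := by
      rcases hc1.2.eq_or_lt with h | h
      · rw [h] at hc2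
        linarith
      · exact h
    have := hlt c (hsub hc1) hcb
    linarith
  -- last time `a'` before `b'` with `U ≤ -1`
  set R : Set ℝ := {s | s ∈ Icc a b' ∧ U s ≤ -1} with hR
  have hU' : ContinuousOn U (Icc a b') := hU.mono (Icc_subset_Icc_right hb'.1.2)
  have hRc : IsCompact R := by
    have : R = Icc a b' ∩ U ⁻¹' (Iic (-1)) := by
      ext s
      simp [hR]
    rw [this]
    exact isCompact_Icc.of_isClosed_subset
      (hU'.preimage_isClosed_of_isClosed isClosed_Icc isClosed_Iic) inter_subset_left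
  have hRn : R.Nonempty := ⟨a, ⟨le_rfl, hab'.le⟩, h1.le⟩
  obtain ⟨a', ha', hmax⟩ := hRc.exists_isGreatest hRn
  have ha'b' : a' < b' := by
    rcases ha'.1.2.eq_or_lt with h | h
    · rw [h] at ha'
      linarith [ha'.2]
    · exact h
  have hgt : ∀ s ∈ Icc a b', a' < s → -1 < U s := by
    intro s hs hs'
    by_contra hc
    push Not at hc
    exact absurd (hmax ⟨hs, hc⟩) (not_le.2 hs')
  have hUa' : U a' = -1 := by
    apply le_antisymm ha'.2
    by_contra hc
    push Not at hc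
    have hsub : Icc a' b' ⊆ Icc a b' := Icc_subset_Icc_left ha'.1.1
    have hIVT := intermediate_value_Icc ha'b'.le (hU'.mono hsub)
    obtain ⟨c, hc1, hc2⟩ := hIVT (show (-1 : ℝ) ∈ Icc (U a') (U b') from ⟨hc.le, by linarith⟩)
    have hcb : a' < c := by
      rcases hc1.1.eq_or_lt with h | h
      · rw [← h] at hc2
        linarith
      · exact h
    have := hgt c (hsub hc1) hcb
    linarith
  refine ⟨a', b', ha'.1.1, ha'b', hb'.1.2, ?_, hUa', hUb'⟩
  intro s hs
  rw [abs_le]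
  have hsab' : s ∈ Icc a b' := ⟨ha'.1.1.trans hs.1, hs.2⟩
  have hsab : s ∈ Icc a b := ⟨hsab'.1, hs.2.trans hb'.1.2⟩
  constructor
  · rcases hs.1.eq_or_lt with h | h
    · rw [← h, hUa']
    · exact (hgt s hsab' h).le
  · rcases hs.2.eq_or_lt with h | h
    · rw [h, hUb']
    · exact (hlt s hsab h).le

/-- **IVA.** -/
theorem crossing_sub_pr {a b : ℝ} (hab : a < b) {U : ℝ → ℝ} (hU : ContinuousOn U (Icc a b))
    (h : (U a < -1 ∧ 1 < U b) ∨ (1 < U a ∧ U b < -1)) :
    ∃ a' b' : ℝ, a ≤ a' ∧ a' < b' ∧ b' ≤ b ∧ (∀ s ∈ Icc a' b', |U s| ≤ 1) ∧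
      ((U a' = -1 ∧ U b' = 1) ∨ (U a' = 1 ∧ U b' = -1)) := by
  rcases h with ⟨h1, h2⟩ | ⟨h1, h2⟩
  · obtain ⟨a', b', e1, e2, e3, e4, e5⟩ := IVA_up hab hU h1 h2
    exact ⟨a', b', e1, e2, e3, e4, Or.inl e5⟩
  · obtain ⟨a', b', e1, e2, e3, e4, e5, e6⟩ := IVA_up hab (U := fun s => - U s) hU.neg
      (by simpa using h1) (by
        show 1 < - U b
        linarith)
    refine ⟨a', b', e1, e2, e3, fun s hs => ?_, Or.inr ⟨?_, ?_⟩⟩
    · have := e4 s hs
      rwa [abs_neg] at this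
    · linarith
    · linarith

end Pool.Agent.Ecl
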