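import Pool.Agent.Lib_helper34.EclTF.NDBA
import Pool.Agent.Lib_helper34.EclTF.STAA

/-!
# The covering graph: induction on the itinerary
-/

set_option autoImplicit false

namespace Pool.Agent.Ecl

open Set

/-- `L` is a chain of nodes realising one flight with the letter `e`: all nodes but the last one
end on a mid section, the last one ends with the exit `e`, and it is linked to all nodes of `S`. -/
def ChainOK (e : Ex) (S : List K.Node) : List K.Node → Prop
  | [] => False
  | [n] => n.tgt < 3 ∧ exOf n.tgt = e ∧ ∀ m ∈ S, Link n m
  | n :: m :: L => n.tgt = 3 ∧ Link n m ∧ ChainOK e S (m :: L)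

/-- The data of a covering graph with memory: states `Q`, for each state and letter a chain of
nodes and a next state, and for each state a collision node. -/
structure Graph where
  Q : Type
  leg : Q → Ex → List K.Node
  nxt : Q → Ex → Q
  fin : Q → K.Node
  s0 : Q

/-- first node of a nonempty chain -/
def hd (L : List K.Node) (d : K.Node) : K.Node := L.headD d

/-- the first node for the itinerary `w` in the state `q` -/
def Graph.first (M : Graph) (q : M.Q) : List Ex → K.Node
  | [] => M.fin q
  | e :: _ => hd (M.leg q e) (M.fin q)

/-- the possible first nodes in the state `q` -/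
def Graph.heads (M : Graph) (q : M.Q) : List K.Node :=
  [M.fin q, hd (M.leg q .mid) (M.fin q), hd (M.leg q .rgt) (M.fin q), hd (M.leg q .lft) (M.fin q)]

theorem Graph.first_mem (M : Graph) (q : M.Q) (w : List Ex) : M.first q w ∈ M.heads q := by
  cases w with
  | nil => simp [Graph.first, Graph.heads]
  | cons e w => cases e <;> simp [Graph.first, Graph.heads]

/-- Consistency of a graph -/
def Graph.OK (M : Graph) : Prop :=
  (∀ q e, ChainOK e (M.heads (M.nxt q e)) (M.leg q e)) ∧
  (∀ q e, ∀ n ∈ M.leg q e, NodeOK n) ∧
  (∀ q, (M.fin q).tgt = 4 ∧ NodeOK (M.fin q))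

/-- one flight -/
theorem chain_good {e : Ex} {S : List K.Node} {m : K.Node} {w : List Ex} (hm : m ∈ S)
    (hg : GoodN m w) (d : K.Node) : ∀ L : List K.Node, ChainOK e S L → (∀ n ∈ L, NodeOK n) →
      GoodN (hd L d) (e :: w) := by
  intro L
  induction L with
  | nil => intro h _; exact h.elim
  | cons n L ih =>
    intro h hok
    cases L with
    | nil =>
      obtain ⟨h1, h2, h3⟩ := h
      have := good_exit (hok n (by simp)) h1 (h3 m hm) hg
      rw [h2] at this
      exact this
    | cons m' L =>
      obtain ⟨h1, h2, h3⟩ := h
      have hr := ih h3 (fun x hx => hok x (by simp [hx]))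
      exact good_mid (hok n (by simp)) h1 h2 hr

theorem graph_good (M : Graph) (hM : M.OK) : ∀ (w : List Ex) (q : M.Q), GoodN (M.first q w) w := by
  intro w
  induction w with
  | nil => intro q; exact good_nil (hM.2.2 q).2 (hM.2.2 q).1
  | cons e w ih =>
    intro q
    exact chain_good (M.first_mem (M.nxt q e) w) (ih (M.nxt q e)) (M.fin q) (M.leg q e)
      (hM.1 q e) (hM.2.1 q e)

/-- the conditions on the first nodes of the start state -/
def StartN (n : K.Node) : Prop :=
  n.src = 4 ∧ n.Ub = 0 ∧ 0 < n.Ua ∧ 0 < n.a - n.Ua ∧ n.a + n.Ua < 2 ^ 36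

/-- **The covering graph proves Statement (I).** -/
theorem statementI_of_graph (M : Graph) (hM : M.OK) (hs : ∀ n ∈ M.heads M.s0, StartN n) :
    StatementI := by
  intro r
  have h := graph_good M hM r M.s0
  obtain ⟨h1, h2, h3, h4, h5⟩ := hs _ (M.first_mem M.s0 r)
  exact good_start h h1 h2 h3 h4 h5

instance (t : K.Tgt) (m : K.Node) : Decidable (Match t m) := by unfold Match; infer_instance

instance (n m : K.Node) : Decidable (Link n m) := by unfold Link; infer_instance

instance decChain (e : Ex) (S : List K.Node) : (L : List K.Node) → Decidable (ChainOK e S L)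
  | [] => isFalse (fun h => h)
  | [n] => by unfold ChainOK; infer_instance
  | n :: m :: L => by
    have := decChain e S (m :: L)
    unfold ChainOK; infer_instance

instance (n : K.Node) : Decidable (StartN n) := by unfold StartN; infer_instance

end Pool.Agent.Ecl
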