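import Pool.Agent.Lib_helper34.EclTF.SEC

/-! Wanted names of block SEC -/

namespace Pool.Agent.Ecl

alias onSec_unique := onSec_unique_pr
alias onSec_cont := onSec_cont_pr

end Pool.Agent.Ecl
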