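import Pool.Agent.Lib_helper34.EclT.Defs
import Pool.Agent.Lib_helper34.EclTF.SECA
import Pool.Agent.Lib_helper34.EclTF.ENGA
import Pool.Agent.Lib_helper34.EclTF.FUNA
import Pool.Agent.Lib_helper34.EclTF.FHCA
import Pool.Agent.Lib_helper34.EclTF.IVAA
/-!
# Block NDA: the image of a crossing curve crosses every successor
-/

set_option autoImplicit false

namespace Pool.Agent.Ecl

open Set Filter Topology

theorem NDA_outX_cont {tgt : ℕ} {a b : ℝ} {y : ℝ → St}
    (hy : ContinuousOn (fun s => toE (y s)) (Icc a b)) :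
    ContinuousOn (fun s => outX tgt (y s)) (Icc a b) := by
  have h1 : ContinuousOn (fun s => (y s).xi) (Icc a b) := continuous_fst.comp_continuousOn hy
  have h2 : ContinuousOn (fun s => (y s).eta) (Icc a b) :=
    continuous_fst.comp_continuousOn (continuous_snd.comp_continuousOn hy)
  unfold outX
  by_cases h : tgt = 0
  · simp only [h, if_true]
    exact (Real.continuous_cos.comp_continuousOn h2).neg
  · simp only [h, if_false]
    exact Real.continuous_cosh.comp_continuousOn h1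

theorem NDA_outY_cont {tgt : ℕ} {a b : ℝ} {y : ℝ → St}
    (hy : ContinuousOn (fun s => toE (y s)) (Icc a b)) :
    ContinuousOn (fun s => outY tgt (y s)) (Icc a b) := by
  have h3 : ContinuousOn (fun s => (y s).p) (Icc a b) :=
    continuous_fst.comp_continuousOn
      (continuous_snd.comp_continuousOn (continuous_snd.comp_continuousOn hy))
  have h4 : ContinuousOn (fun s => (y s).q) (Icc a b) :=
    continuous_snd.comp_continuousOn
      (continuous_snd.comp_continuousOn (continuous_snd.comp_continuousOn hy))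
  unfold outY
  by_cases h : tgt = 0
  · simp only [h, if_true]
    exact h4.neg
  · simp only [h, if_false]
    exact h3

theorem NDA_solve {A B Ua Ub Va Vb U V X Y w : ℝ} (hw : w ≠ 0) (hD : 0 < Ua * Vb - Ub * Va)
    (hX : X = (A + U * Ua + V * Va) / w) (hY : Y = (B + U * Ub + V * Vb) / w) :
    (Vb * (w * X - A) - Va * (w * Y - B)) / (Ua * Vb - Ub * Va) = U ∧
      (Ua * (w * Y - B) - Ub * (w * X - A)) / (Ua * Vb - Ub * Va) = V := by
  have e1 : w * X - A = U * Ua + V * Va := by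
    rw [hX, mul_div_cancel₀ _ hw]; ring
  have e2 : w * Y - B = U * Ub + V * Vb := by
    rw [hY, mul_div_cancel₀ _ hw]; ring
  rw [e1, e2]
  constructor
  · rw [div_eq_iff hD.ne']; ring
  · rw [div_eq_iff hD.ne']; ring

/-- **NDA.** the image of a crossing curve crosses every successor (cites SEC, ENG, FUN, FHC, IVA) -/
theorem node_image_pr {n m : K.Node} (hn : NodeOK n) (h4 : n.tgt ≠ 4) (hl : Link n m)
    {a b : ℝ} {X Y : ℝ → ℝ} (hc : Cross n a b X Y) :
    ∃ (a' b' : ℝ) (X' Y' : ℝ → ℝ), a ≤ a' ∧ b' ≤ b ∧ Cross m a' b' X' Y' ∧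
      ∀ s ∈ Icc a' b', ∀ x : St, OnSec n.src (n.kap / w60) (X s) (Y s) x →
        ∃ y : St, Fly n.tgt (n.kap' / w60) x y ∧
          OnSec m.src (m.kap / w60) (X' s) (Y' s) (rotT n.tgt y) := by
  obtain ⟨_, hdet, hP⟩ := hn
  obtain ⟨hab, hX, hY, u, v, huv, hends⟩ := hc
  obtain ⟨hsrc, hkap, t, ht, hma⟩ := hl
  have : Nonempty St := ⟨⟨0, 0, 0, 0⟩⟩
  have H : ∀ s, s ∈ Icc a b → ∃ x y : St, OnSec n.src (n.kap / w60) (X s) (Y s) x ∧
      Fly n.tgt (n.kap' / w60) x y ∧ CovOK t (u s) (outX n.tgt y) (outY n.tgt y) := by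
    intro s hs
    obtain ⟨hu, hv, eX, eY⟩ := huv s hs
    obtain ⟨x, h1, h2, _⟩ := hP (u s) (v s) hu hv
    obtain ⟨y, h3, h5⟩ := h2 h4
    rw [← eX, ← eY] at h1
    exact ⟨x, y, h1, h3, h5 t ht⟩
  choose! xs ys h1 h2 h3 using H
  have hxc : ContinuousOn (fun s => toE (xs s)) (Icc a b) := onSec_cont hX hY h1
  have hyc : ContinuousOn (fun s => toE (ys s)) (Icc a b) := by
    rw [Metric.continuousOn_iff]
    intro s0 hs0 ε hε
    obtain ⟨δ, hδ, hn⟩ := fly_near (h1 s0 hs0) (h2 s0 hs0) hε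
    rw [Metric.continuousOn_iff] at hxc
    obtain ⟨η, hη, hn'⟩ := hxc s0 hs0 δ hδ
    exact ⟨η, hη, fun s hs hd => hn _ _ _ _ (h1 s hs) (hn' s hs hd) (h2 s hs)⟩
  set X' : ℝ → ℝ := fun s => outX n.tgt (ys s) with hX'
  set Y' : ℝ → ℝ := fun s => outY n.tgt (ys s) with hY'
  have hXc : ContinuousOn X' (Icc a b) := NDA_outX_cont hyc
  have hYc : ContinuousOn Y' (Icc a b) := NDA_outY_cont hyc
  have hD : (0 : ℝ) < t.Ua * t.Vb - t.Ub * t.Va := by exact_mod_cast hdet t ht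
  have hw : w36 ≠ 0 := by unfold w36; positivity
  set U : ℝ → ℝ := fun s =>
    ((t.Vb : ℝ) * (w36 * X' s - t.a) - t.Va * (w36 * Y' s - t.b)) /
      (t.Ua * t.Vb - t.Ub * t.Va) with hU
  set V : ℝ → ℝ := fun s =>
    ((t.Ua : ℝ) * (w36 * Y' s - t.b) - t.Ub * (w36 * X' s - t.a)) /
      (t.Ua * t.Vb - t.Ub * t.Va) with hV
  have hUc : ContinuousOn U (Icc a b) := by
    apply ContinuousOn.div_const
    apply ContinuousOn.sub
    · exact continuousOn_const.mul ((continuousOn_const.mul hXc).sub continuousOn_const)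
    · exact continuousOn_const.mul ((continuousOn_const.mul hYc).sub continuousOn_const)
  have key : ∀ s ∈ Icc a b, X' s = (t.a + U s * t.Ua + V s * t.Va) / w36 ∧
      Y' s = (t.b + U s * t.Ub + V s * t.Vb) / w36 ∧ (1 < U s ∨ U s < -1 ∨ |V s| < 1) ∧
      (u s = -1 → if t.flip then 1 < U s else U s < -1) ∧
      (u s = 1 → if t.flip then U s < -1 else 1 < U s) := by
    intro s hs
    obtain ⟨U₀, V₀, e1, e2, e3, e4, e5⟩ := h3 s hs
    obtain ⟨f1, f2⟩ := NDA_solve hw hD e1 e2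
    have g1 : U s = U₀ := f1
    have g2 : V s = V₀ := f2
    rw [g1, g2]
    exact ⟨e1, e2, e3, e4, e5⟩
  have hal : a ∈ Icc a b := ⟨le_refl _, hab.le⟩
  have hbl : b ∈ Icc a b := ⟨hab.le, le_refl _⟩
  have hcr : (U a < -1 ∧ 1 < U b) ∨ (1 < U a ∧ U b < -1) := by
    obtain ⟨_, _, _, ka1, ka2⟩ := key a hal
    obtain ⟨_, _, _, kb1, kb2⟩ := key b hbl
    cases hf : t.flip with
    | true =>
      simp only [hf, if_true] at ka1 ka2 kb1 kb2
      rcases hends with ⟨q1, q2⟩ | ⟨q1, q2⟩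
      · exact Or.inr ⟨ka1 q1, kb2 q2⟩
      · exact Or.inl ⟨ka2 q1, kb1 q2⟩
    | false =>
      simp only [hf] at ka1 ka2 kb1 kb2
      rcases hends with ⟨q1, q2⟩ | ⟨q1, q2⟩
      · exact Or.inl ⟨by simpa using ka1 q1, by simpa using kb2 q2⟩
      · exact Or.inr ⟨by simpa using ka2 q1, by simpa using kb1 q2⟩
  obtain ⟨a', b', ha', hab', hb', hin, hends'⟩ := crossing_sub hab hUc hcr
  have hsub : Icc a' b' ⊆ Icc a b := Icc_subset_Icc ha' hb'
  obtain ⟨m1, m2, m3, m4, m5, m6⟩ := hma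
  refine ⟨a', b', X', Y', ha', hb', ⟨hab', hXc.mono hsub, hYc.mono hsub, U, V, ?_, hends'⟩, ?_⟩
  · intro s hs
    obtain ⟨k1, k2, k3, _, _⟩ := key s (hsub hs)
    have hUs := hin s hs
    refine ⟨hUs, ?_, ?_, ?_⟩
    · rcases k3 with k3 | k3 | k3
      · have := (abs_le.mp hUs).2; linarith
      · have := (abs_le.mp hUs).1; linarith
      · exact k3.le
    · rw [k1]; unfold nX; rw [m1, m3, m5]
    · rw [k2]; unfold nY; rw [m2, m4, m6]
  · intro s hs x hx
    have hs' := hsub hs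
    have ex : x = xs s := onSec_unique hx (h1 s hs')
    subst ex
    refine ⟨ys s, h2 s hs', ?_⟩
    obtain ⟨htg, hon⟩ := fly_next (h1 s hs').1 (h2 s hs')
    have hon' : OnSec n.tgt (n.kap' / w60) (X' s) (Y' s) (rotT n.tgt (ys s)) := hon
    rw [hsrc]
    have hcases : n.tgt = 3 ∨ n.tgt = 0 ∨ n.tgt = 1 ∨ n.tgt = 2 := by omega
    rcases hcases with h0 | h0 | h0 | h0
    · rw [hkap h0]; exact hon'
    · rw [h0] at hon' ⊢; exact hon'
    · rw [h0] at hon' ⊢; exact hon'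
    · rw [h0] at hon' ⊢; exact hon'

end Pool.Agent.Ecl
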