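import Pool.Agent.Lib_helper34.EclT.Defs
import Pool.Agent.Lib_helper34.EclTF.SECA
import Pool.Agent.Lib_helper34.EclTF.NDAA
import Pool.Agent.Lib_helper34.EclTF.GLUA
/-!
# NDB: the three kinds of nodes
-/

set_option autoImplicit false

namespace Pool.Agent.Ecl

open Set Filter Topology

/-- **NDB.** collision nodes (cites SEC) -/
theorem good_nil_pr {n : K.Node} (hn : NodeOK n) (h4 : n.tgt = 4) : GoodN n [] := by
  classical
  intro a b X Y hc
  obtain ⟨hab, -, -, u, v, huv, hends⟩ := hc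
  have hP : ∀ s ∈ Icc a b, ∃ σ : ℝ, (∀ x : St, OnSec n.src (n.kap / w60) (X s) (Y s) x →
      LastArc x σ) ∧ (u s = -1 → if n.flip then 0 < σ else σ < 0) ∧
      (u s = 1 → if n.flip then σ < 0 else 0 < σ) := by
    intro s hs
    obtain ⟨h1, h2, h3, h5⟩ := huv s hs
    obtain ⟨x, hx, -, hx4⟩ := hn.2.2 (u s) (v s) h1 h2
    obtain ⟨σ, hσ, hσ1, hσ2⟩ := hx4 h4
    refine ⟨σ, ?_, hσ1, hσ2⟩
    intro x' hx'
    rw [h3, h5] at hx'
    rw [onSec_unique hx' hx]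
    exact hσ
  choose! σ hσ using hP
  have haa : a ∈ Icc a b := ⟨le_rfl, hab.le⟩
  have hbb : b ∈ Icc a b := ⟨hab.le, le_rfl⟩
  refine ⟨a, b, σ, le_rfl, hab, le_rfl, fun s hs x hx => (hσ s hs).1 x hx, ?_⟩
  rcases hends with ⟨ha, hb⟩ | ⟨ha, hb⟩
  · have e1 := (hσ a haa).2.1 ha
    have e2 := (hσ b hbb).2.2 hb
    split_ifs at e1 e2 with hf
    · exact mul_neg_of_pos_of_neg e1 e2
    · exact mul_neg_of_neg_of_pos e1 e2
  · have e1 := (hσ a haa).2.2 ha
    have e2 := (hσ b hbb).2.1 hb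
    split_ifs at e1 e2 with hf
    · exact mul_neg_of_neg_of_pos e1 e2
    · exact mul_neg_of_pos_of_neg e1 e2

/-- **NDB.** nodes ending on a mid section (cites NDA, GLU) -/
theorem good_mid_pr {n m : K.Node} (hn : NodeOK n) (h3 : n.tgt = 3) (hl : Link n m) {e : Ex}
    {w : List Ex} (hm : GoodN m (e :: w)) : GoodN n (e :: w) := by
  intro a b X Y hc
  obtain ⟨a', b', X', Y', ha', hb', hc', himg⟩ := node_image hn (by omega) hl hc
  obtain ⟨a'', b'', σ, h1, h2, h4, h5, h6⟩ := hm a' b' X' Y' hc'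
  refine ⟨a'', b'', σ, ha'.trans h1, h2, h4.trans hb', ?_, h6⟩
  intro s hs x hx
  obtain ⟨y, hy, hy'⟩ := himg s ⟨h1.trans hs.1, hs.2.trans h4⟩ x hx
  have h7 := h5 s hs _ hy'
  have h8 : rotT n.tgt y = y := by
    unfold rotT
    rw [if_pos h3]
  rw [h8] at h7
  rw [h3] at hy
  exact fly_itin hy h7

/-- **NDB.** nodes ending with an exit (cites NDA, GLU) -/
theorem good_exit_pr {n m : K.Node} (hn : NodeOK n) (h3 : n.tgt < 3) (hl : Link n m)
    {w : List Ex} (hm : GoodN m w) : GoodN n (exOf n.tgt :: w) := by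
  intro a b X Y hc
  obtain ⟨a', b', X', Y', ha', hb', hc', himg⟩ := node_image hn (by omega) hl hc
  obtain ⟨a'', b'', σ, h1, h2, h4, h5, h6⟩ := hm a' b' X' Y' hc'
  refine ⟨a'', b'', σ, ha'.trans h1, h2, h4.trans hb', ?_, h6⟩
  intro s hs x hx
  obtain ⟨y, hy, hy'⟩ := himg s ⟨h1.trans hs.1, hs.2.trans h4⟩ x hx
  have h7 := h5 s hs _ hy'
  have h8 : rotT n.tgt y = rot (exOf n.tgt) y := by
    unfold rotT
    rw [if_neg (by omega)]
  rw [h8] at h7
  exact ⟨y, fly_flight (by omega) hy, h7⟩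

end Pool.Agent.Ecl
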