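import Pool.Agent.Lib_helper34.EclTF.NDB

/-! Wanted names of block NDB -/

namespace Pool.Agent.Ecl

alias good_nil := good_nil_pr
alias good_mid := good_mid_pr
alias good_exit := good_exit_pr

end Pool.Agent.Ecl
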