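import Pool.Agent.Lib_helper34.EclT.Defs
/-!
# SEC: states on the sections
-/

set_option autoImplicit false

namespace Pool.Agent.Ecl

open Set Filter Topology

lemma SEC_ext {x x' : St} (h1 : x.xi = x'.xi) (h2 : x.eta = x'.eta) (h3 : x.p = x'.p)
    (h4 : x.q = x'.q) : x = x' := by
  cases x
  cases x'
  simp only at h1 h2 h3 h4
  subst h1 h2 h3 h4
  rfl

lemma SEC_cos {a b : ℝ} (h1 : 0 < a) (h2 : a < Real.pi) (h3 : 0 < b) (h4 : b < Real.pi)
    (h : Real.cos a = Real.cos b) : a = b :=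
  Real.injOn_cos ⟨h1.le, h2.le⟩ ⟨h3.le, h4.le⟩ h

lemma SEC_arsinh {a X : ℝ} (h1 : 0 < a) (h : Real.cosh a = X) :
    a = Real.arsinh (√(X ^ 2 - 1)) := by
  have h2 : Real.sinh a = √(X ^ 2 - 1) := by
    rw [← h, Real.cosh_sq, add_sub_cancel_right, Real.sqrt_sq (Real.sinh_pos_iff.2 h1).le]
  rw [← h2, Real.arsinh_sinh]

lemma SEC_pos {p q W : ℝ} (h : p ^ 2 + q ^ 2 = W) (hp : 0 < p) : p = √(W - q ^ 2) := by
  rw [← h, add_sub_cancel_right, Real.sqrt_sq hp.le]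

lemma SEC_neg {p q W : ℝ} (h : p ^ 2 + q ^ 2 = W) (hq : q < 0) : q = -√(W - p ^ 2) := by
  rw [← h, add_sub_cancel_left, Real.sqrt_sq_eq_abs, abs_of_neg hq, neg_neg]

lemma SEC_pos' {p q W : ℝ} (h : p ^ 2 + q ^ 2 = W) (hq : 0 < q) : q = √(W - p ^ 2) := by
  rw [← h, add_sub_cancel_left, Real.sqrt_sq hq.le]

lemma SEC_U2 : Continuous fun v : ℝ × ℝ => U2 v.1 v.2 := by
  unfold U2
  fun_prop

/-- **SEC.** the coordinates determine the state -/
theorem onSec_unique_pr {src : ℕ} {κ X Y : ℝ} {x x' : St} (h : OnSec src κ X Y x)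
    (h' : OnSec src κ X Y x') : x = x' := by
  obtain ⟨he, h⟩ := h
  obtain ⟨he', h'⟩ := h'
  match src, h, h' with
  | 0, h, h' =>
    obtain ⟨a1, a2, a3, a4, a5, a6⟩ := h
    obtain ⟨b1, b2, b3, b4, b5, b6⟩ := h'
    have e1 : x.xi = x'.xi := a1.trans b1.symm
    have e2 : x.eta = x'.eta := SEC_cos a2 a3 b2 b3 (a4.trans b4.symm)
    have e3 : x.q = x'.q := a5.trans b5.symm
    refine SEC_ext e1 e2 ?_ e3
    rw [SEC_pos he a6, SEC_pos he' b6, e1, e2, e3]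
  | 1, h, h' =>
    obtain ⟨a1, a2, a3, a4, a5⟩ := h
    obtain ⟨b1, b2, b3, b4, b5⟩ := h'
    have e1 : x.xi = x'.xi := by rw [SEC_arsinh a2 a3, SEC_arsinh b2 b3]
    have e2 : x.eta = x'.eta := a1.trans b1.symm
    have e3 : x.p = x'.p := a4.trans b4.symm
    refine SEC_ext e1 e2 e3 ?_
    rw [SEC_neg he a5, SEC_neg he' b5, e1, e2, e3]
  | 2, h, h' =>
    obtain ⟨a1, a2, a3, a4, a5⟩ := h
    obtain ⟨b1, b2, b3, b4, b5⟩ := h'
    have e1 : x.xi = x'.xi := by rw [SEC_arsinh a2 a3, SEC_arsinh b2 b3]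
    have e2 : x.eta = x'.eta := a1.trans b1.symm
    have e3 : x.p = x'.p := a4.trans b4.symm
    refine SEC_ext e1 e2 e3 ?_
    rw [SEC_pos' he a5, SEC_pos' he' b5, e1, e2, e3]
  | 3, h, h' =>
    obtain ⟨a1, a2, a3, a4, a5, a6, a7⟩ := h
    obtain ⟨b1, b2, b3, b4, b5, b6, b7⟩ := h'
    have e1 : x.xi = x'.xi := by rw [SEC_arsinh a4 a5, SEC_arsinh b4 b5]
    have e2 : x.eta = x'.eta := SEC_cos a2 a3 b2 b3 (a1.trans b1.symm)
    have e3 : x.p = x'.p := a6.trans b6.symm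
    refine SEC_ext e1 e2 e3 ?_
    rw [SEC_neg he a7, SEC_neg he' b7, e1, e2, e3]
  | n + 4, h, h' =>
    obtain ⟨a1, a2, a3, a4, a5⟩ := h
    obtain ⟨b1, b2, b3, b4, b5⟩ := h'
    have e1 : x.xi = x'.xi := a1.trans b1.symm
    have e2 : x.eta = x'.eta := a2.trans b2.symm
    have e3 : x.p = x'.p := a3.trans b3.symm
    refine SEC_ext e1 e2 e3 ?_
    rw [SEC_pos' he a5, SEC_pos' he' b5, e1, e2, e3]

lemma SEC_key {a b : ℝ} {x : ℝ → St} (f g P Q : ℝ → ℝ) (hf : ContinuousOn f (Icc a b))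
    (hg : ContinuousOn g (Icc a b)) (hP : ContinuousOn P (Icc a b))
    (hQ : ContinuousOn Q (Icc a b))
    (he : ∀ s ∈ Icc a b, (x s).xi = f s ∧ (x s).eta = g s ∧ (x s).p = P s ∧ (x s).q = Q s) :
    ContinuousOn (fun s => toE (x s)) (Icc a b) := by
  have h : ContinuousOn (fun s => (f s, g s, P s, Q s)) (Icc a b) :=
    hf.prodMk (hg.prodMk (hP.prodMk hQ))
  refine h.congr ?_
  intro s hs
  obtain ⟨h1, h2, h3, h4⟩ := he s hs
  show ((x s).xi, (x s).eta, (x s).p, (x s).q) = _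
  rw [h1, h2, h3, h4]

lemma SEC_xi {a b : ℝ} {X : ℝ → ℝ} (hX : ContinuousOn X (Icc a b)) :
    ContinuousOn (fun s => Real.arsinh (√(X s ^ 2 - 1))) (Icc a b) :=
  Real.continuous_arsinh.comp_continuousOn
    (((hX.pow 2).sub continuousOn_const).sqrt)

lemma SEC_W {a b : ℝ} {f g r : ℝ → ℝ} (hf : ContinuousOn f (Icc a b))
    (hg : ContinuousOn g (Icc a b)) (hr : ContinuousOn r (Icc a b)) :
    ContinuousOn (fun s => √(U2 (f s) (g s) - r s ^ 2)) (Icc a b) :=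
  ((SEC_U2.comp_continuousOn (hf.prodMk hg)).sub (hr.pow 2)).sqrt

/-- **SEC.** the state depends continuously on the coordinates -/
theorem onSec_cont_pr {src : ℕ} {κ a b : ℝ} {X Y : ℝ → ℝ} {x : ℝ → St}
    (hX : ContinuousOn X (Icc a b)) (hY : ContinuousOn Y (Icc a b))
    (h : ∀ s ∈ Icc a b, OnSec src κ (X s) (Y s) (x s)) :
    ContinuousOn (fun s => toE (x s)) (Icc a b) := by
  have hc : ∀ c : ℝ, ContinuousOn (fun _ : ℝ => c) (Icc a b) := fun c => continuousOn_const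
  match src, h with
  | 0, h =>
    have hac : ContinuousOn (fun s => Real.arccos (X s)) (Icc a b) :=
      Real.continuous_arccos.comp_continuousOn hX
    refine SEC_key (fun _ => 0) (fun s => Real.arccos (X s))
      (fun s => √(U2 0 (Real.arccos (X s)) - Y s ^ 2)) Y (hc 0) hac (SEC_W (hc 0) hac hY) hY ?_
    intro s hs
    obtain ⟨he, a1, a2, a3, a4, a5, a6⟩ := h s hs
    have e2 : (x s).eta = Real.arccos (X s) := by
      rw [← a4, Real.arccos_cos a2.le a3.le]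
    refine ⟨a1, e2, ?_, a5⟩
    have e3 := SEC_pos he a6
    rw [e3, a1, e2, a5]
  | 1, h =>
    refine SEC_key (fun s => Real.arsinh (√(X s ^ 2 - 1))) (fun _ => Real.pi) Y
      (fun s => -√(U2 (Real.arsinh (√(X s ^ 2 - 1))) Real.pi - Y s ^ 2)) (SEC_xi hX) (hc _) hY
      (SEC_W (SEC_xi hX) (hc _) hY).neg ?_
    intro s hs
    obtain ⟨he, a1, a2, a3, a4, a5⟩ := h s hs
    have e1 := SEC_arsinh a2 a3
    refine ⟨e1, a1, a4, ?_⟩
    have e3 := SEC_neg he a5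
    rw [e3, a1, a4]
    rw [e1]
  | 2, h =>
    refine SEC_key (fun s => Real.arsinh (√(X s ^ 2 - 1))) (fun _ => 0) Y
      (fun s => √(U2 (Real.arsinh (√(X s ^ 2 - 1))) 0 - Y s ^ 2)) (SEC_xi hX) (hc _) hY
      (SEC_W (SEC_xi hX) (hc _) hY) ?_
    intro s hs
    obtain ⟨he, a1, a2, a3, a4, a5⟩ := h s hs
    have e1 := SEC_arsinh a2 a3
    refine ⟨e1, a1, a4, ?_⟩
    have e3 := SEC_pos' he a5
    rw [e3, a1, a4]
    rw [e1]
  | 3, h =>
    refine SEC_key (fun s => Real.arsinh (√(X s ^ 2 - 1))) (fun _ => Real.arccos κ) Y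
      (fun s => -√(U2 (Real.arsinh (√(X s ^ 2 - 1))) (Real.arccos κ) - Y s ^ 2)) (SEC_xi hX)
      (hc _) hY (SEC_W (SEC_xi hX) (hc _) hY).neg ?_
    intro s hs
    obtain ⟨he, a1, a2, a3, a4, a5, a6, a7⟩ := h s hs
    have e1 := SEC_arsinh a4 a5
    have e2 : (x s).eta = Real.arccos κ := by
      rw [← a1, Real.arccos_cos a2.le a3.le]
    refine ⟨e1, e2, a6, ?_⟩
    have e3 := SEC_neg he a7
    rw [e3, e2, a6]
    rw [e1]
  | n + 4, h =>
    refine SEC_key (fun _ => 0) (fun _ => 0) X (fun s => √(U2 0 0 - X s ^ 2)) (hc _) (hc _) hX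
      (SEC_W (hc _) (hc _) hX) ?_
    intro s hs
    obtain ⟨he, a1, a2, a3, a4, a5⟩ := h s hs
    refine ⟨a1, a2, a3, ?_⟩
    have e3 := SEC_pos' he a5
    rw [e3, a1, a2, a3]

end Pool.Agent.Ecl
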