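import Pool.Agent.Lib_helper34.EclT.Defs
/-!
# STA: the start
-/

set_option autoImplicit false

namespace Pool.Agent.Ecl

open Set Filter Topology

lemma STA_w36 : (0 : ℝ) < w36 := by unfold w36; positivity

lemma STA_eject {κ Y θ : ℝ} (h0 : 0 < θ) (h1 : θ < Real.pi / 2) :
    OnSec 4 κ (Real.cos θ) Y (eject θ) := by
  have hs : 0 < Real.sin θ := Real.sin_pos_of_pos_of_lt_pi h0 (by linarith [Real.pi_pos])
  have hc : 0 < Real.cos θ := Real.cos_pos_of_mem_Ioo ⟨by linarith, h1⟩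
  refine ⟨?_, rfl, rfl, rfl, hc, hs⟩
  show Real.cos θ ^ 2 + Real.sin θ ^ 2 = U2 0 0
  unfold U2
  simp

/-- **STA.** a start node with itinerary `w` gives an arc of ejections -/
theorem good_start_pr {n : K.Node} {w : List Ex} (h : GoodN n w) (hs : n.src = 4)
    (hUb : n.Ub = 0) (hUa : 0 < n.Ua) (h1 : 0 < n.a - n.Ua) (h2 : n.a + n.Ua < 2 ^ 36) :
    ∃ θ₁ θ₂ : ℝ, 0 < θ₁ ∧ θ₁ < θ₂ ∧ θ₂ < Real.pi / 2 ∧ ∃ σ : ℝ → ℝ,
      (∀ θ ∈ Icc θ₁ θ₂, Itin (eject θ) w (σ θ)) ∧ σ θ₁ * σ θ₂ < 0 := by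
  have hw := STA_w36
  have hUa' : (0 : ℝ) < n.Ua := by exact_mod_cast hUa
  have h1' : (0 : ℝ) < n.a - n.Ua := by exact_mod_cast h1
  have h2' : (n.a : ℝ) + n.Ua < w36 := by
    unfold w36
    exact_mod_cast h2
  set A : ℝ := (n.a - n.Ua) / w36 with hA
  set B : ℝ := (n.a + n.Ua) / w36 with hB
  have hA0 : 0 < A := div_pos h1' hw
  have hB1 : B < 1 := by
    rw [hB, div_lt_one hw]
    exact h2'
  have hAB : A < B := by
    rw [hA, hB]
    exact div_lt_div_of_pos_right (by linarith) hw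
  set α : ℝ := Real.arccos B with hα
  set β : ℝ := Real.arccos A with hβ
  have hα0 : 0 < α := Real.arccos_pos.2 hB1
  have hβ2 : β < Real.pi / 2 := Real.arccos_lt_pi_div_two.2 hA0
  have hαβ : α < β := Real.strictAntiOn_arccos ⟨by linarith, by linarith⟩
    ⟨by linarith, by linarith⟩ hAB
  have hcα : Real.cos α = B := Real.cos_arccos (by linarith) hB1.le
  have hcβ : Real.cos β = A := Real.cos_arccos (by linarith) (by linarith)
  have hpi := Real.pi_pos
  have hcos : ∀ θ ∈ Icc α β, A ≤ Real.cos θ ∧ Real.cos θ ≤ B := by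
    intro θ hθ
    constructor
    · rw [← hcβ]
      exact Real.cos_le_cos_of_nonneg_of_le_pi (by linarith [hθ.1]) (by linarith) hθ.2
    · rw [← hcα]
      exact Real.cos_le_cos_of_nonneg_of_le_pi hα0.le (by linarith [hθ.2]) hθ.1
  have hcross : Cross n α β (fun θ => Real.cos θ) (fun _ => n.b / w36) := by
    refine ⟨hαβ, Real.continuous_cos.continuousOn, continuousOn_const,
      fun θ => (w36 * Real.cos θ - n.a) / n.Ua, fun _ => 0, ?_, Or.inr ⟨?_, ?_⟩⟩
    · intro θ hθ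
      obtain ⟨c1, c2⟩ := hcos θ hθ
      rw [hA, div_le_iff₀ hw] at c1
      rw [hB, le_div_iff₀ hw] at c2
      refine ⟨?_, by simp, ?_, ?_⟩
      · rw [abs_le, le_div_iff₀ hUa', div_le_iff₀ hUa']
        constructor <;> linarith
      · unfold nX
        field_simp
        ring
      · unfold nY
        rw [hUb]
        simp
    · simp only
      rw [hcα, hB]
      field_simp
      ring
    · simp only
      rw [hcβ, hA]
      field_simp
      ring
  obtain ⟨a', b', σ, e1, e2, e3, e4, e5⟩ := h α β _ _ hcross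
  refine ⟨a', b', hα0.trans_le e1, e2, e3.trans_lt hβ2, σ, ?_, e5⟩
  intro θ hθ
  apply e4 θ hθ
  rw [hs]
  exact STA_eject (by linarith [hθ.1]) (by linarith [hθ.2])

end Pool.Agent.Ecl
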